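import Mathlib

/-!
# Basic facts on the Perron vector of a connected graph

We work with the weights `a v w = 1` if `v w` is an edge and `0` otherwise, and with a positive
vector `x` such that `∑ w, a v w * x w = r * x v`.
-/

set_option linter.unusedSectionVars false

namespace MP_582e4a_co

variable {V : Type} [Fintype V] [DecidableEq V]

/-- abstract data: a symmetric zero-one matrix with zero diagonal, no zero row, and a positive
unit eigenvector -/
structure Data (a : V → V → ℝ) (x : V → ℝ) (r : ℝ) : Prop where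
  zo : ∀ v w, a v w = 0 ∨ a v w = 1
  symm : ∀ v w, a v w = a w v
  diag : ∀ v, a v v = 0
  pos : ∀ v, 0 < x v
  eig : ∀ v, ∑ w, a v w * x w = r * x v
  unit : ∑ v, x v ^ 2 = 1
  deg : ∀ v, 1 ≤ ∑ w, a v w

namespace Data

variable {a : V → V → ℝ} {x : V → ℝ} {r : ℝ}

theorem nonneg (h : Data a x r) (v w : V) : 0 ≤ a v w := by
  rcases h.zo v w with e | e <;> rw [e]
  norm_num

theorem le_one (h : Data a x r) (v w : V) : a v w ≤ 1 := by
  rcases h.zo v w with e | e <;> rw [e]
  norm_num

/-- `r² ≥ d_u` -/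
theorem deg_le_sq (h : Data a x r) (u : V) : ∑ w, a u w ≤ r ^ 2 := by
  have h1 : r ^ 2 * x u = ∑ w, a u w * ∑ z, a w z * x z := by
    have : ∀ w, a u w * ∑ z, a w z * x z = r * (a u w * x w) := by
      intro w
      rw [h.eig w]; ring
    simp only [this]
    rw [← Finset.mul_sum, h.eig u]
    ring
  have h2 : (∑ w, a u w) * x u ≤ ∑ w, a u w * ∑ z, a w z * x z := by
    rw [Finset.sum_mul]
    refine Finset.sum_le_sum fun w _ => ?_
    rcases h.zo u w with e | e
    · rw [e]; simp
    · rw [e, one_mul, one_mul]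
      have h3 : a w u * x u ≤ ∑ z, a w z * x z :=
        Finset.single_le_sum (f := fun z => a w z * x z)
          (fun z _ => mul_nonneg (h.nonneg w z) (h.pos z).le) (Finset.mem_univ u)
      rw [h.symm w u, e, one_mul] at h3
      exact h3
  rw [← h1] at h2
  exact le_of_mul_le_mul_right h2 (h.pos u)

theorem card_pos (h : Data a x r) : 0 < Fintype.card V := by
  rcases isEmpty_or_nonempty V with hV | hV
  · have := h.unit
    simp at this
  · exact Fintype.card_pos

theorem r_nonneg (h : Data a x r) : 0 ≤ r := by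
  have hne : Nonempty V := Fintype.card_pos_iff.1 h.card_pos
  obtain ⟨v⟩ := hne
  have h1 : 0 ≤ r * x v := by
    rw [← h.eig v]
    exact Finset.sum_nonneg fun w _ => mul_nonneg (h.nonneg v w) (h.pos w).le
  exact nonneg_of_mul_nonneg_left h1 (h.pos v)

theorem r_ge_one (h : Data a x r) : 1 ≤ r := by
  have hne : Nonempty V := Fintype.card_pos_iff.1 h.card_pos
  obtain ⟨v⟩ := hne
  have h1 := (h.deg v).trans (h.deg_le_sq v)
  have h2 := h.r_nonneg
  nlinarith

/-- Hong's bound -/
theorem hong (h : Data a x r) :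
    r ^ 2 + ((Fintype.card V : ℝ) - 1) ≤ ∑ v, ∑ w, a v w := by
  have hne : Nonempty V := Fintype.card_pos_iff.1 h.card_pos
  obtain ⟨v, _, hv⟩ := Finset.exists_max_image Finset.univ x Finset.univ_nonempty
  have hv' : ∀ w, x w ≤ x v := fun w => hv w (Finset.mem_univ w)
  have h1 : r ^ 2 * x v = ∑ w, a v w * ∑ z, a w z * x z := by
    have : ∀ w, a v w * ∑ z, a w z * x z = r * (a v w * x w) := by
      intro w
      rw [h.eig w]; ring
    simp only [this]
    rw [← Finset.mul_sum, h.eig v]
    ring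
  have h2 : ∑ w, a v w * ∑ z, a w z * x z ≤ (∑ w, a v w * ∑ z, a w z) * x v := by
    rw [Finset.sum_mul]
    refine Finset.sum_le_sum fun w _ => ?_
    rw [mul_assoc]
    refine mul_le_mul_of_nonneg_left ?_ (h.nonneg v w)
    rw [Finset.sum_mul]
    exact Finset.sum_le_sum fun z _ => mul_le_mul_of_nonneg_left (hv' z) (h.nonneg w z)
  have h3 : r ^ 2 ≤ ∑ w, a v w * ∑ z, a w z := by
    rw [← h1] at h2
    exact le_of_mul_le_mul_right h2 (h.pos v)
  have h4 : ∑ w, a v w * ∑ z, a w z = ∑ w, ∑ z, a w z - ∑ w, (1 - a v w) * ∑ z, a w z := by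
    rw [← Finset.sum_sub_distrib]
    refine Finset.sum_congr rfl fun w _ => ?_
    ring
  have h5 : ∑ w, (1 - a v w) + ∑ z, a v z - 1 ≤ ∑ w, (1 - a v w) * ∑ z, a w z := by
    have h6 : ∀ w, (1 - a v w) * 1 + (if w = v then (∑ z, a v z - 1) else 0) ≤
        (1 - a v w) * ∑ z, a w z := by
      intro w
      by_cases hw : w = v
      · subst hw
        rw [h.diag, if_pos rfl]
        linarith
      · rw [if_neg hw, add_zero]
        exact mul_le_mul_of_nonneg_left (h.deg w) (by linarith [h.le_one v w])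
    have h7 := Finset.sum_le_sum (s := Finset.univ) fun w _ => h6 w
    rw [Finset.sum_add_distrib] at h7
    simp only [mul_one, Finset.sum_ite_eq', Finset.mem_univ, if_true] at h7
    linarith
  have h8 : ∑ w, (1 - a v w) = (Fintype.card V : ℝ) - ∑ w, a v w := by
    rw [Finset.sum_sub_distrib]
    simp
  rw [h8] at h5
  rw [h4] at h3
  linarith

/-- closed-neighbourhood form of the eigenvalue equation -/
theorem eig' (h : Data a x r) (v : V) :
    ∑ w, (a v w + if w = v then 1 else 0) * x w = (r + 1) * x v := by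
  simp only [add_mul, Finset.sum_add_distrib, h.eig v, ite_mul, one_mul, zero_mul,
    Finset.sum_ite_eq', Finset.mem_univ, if_true]

theorem cube_ineq (p q : ℝ) (hq : 0 ≤ q) (hpq : q ≤ p) :
    (p ^ 2 - q ^ 2) ^ 2 ≤ 32 / 27 * (p ^ 3 * (p - q)) := by
  have h1 : (p ^ 2 - q ^ 2) ^ 2 = (p - q) * ((p - q) * (p + q) ^ 2) := by ring
  have h2 : (p - q) * (p + q) ^ 2 ≤ 32 / 27 * p ^ 3 := by
    nlinarith [mul_nonneg hq (sq_nonneg (p - 3 * q)), mul_nonneg (sub_nonneg.2 hpq) (sq_nonneg (p - 3 * q)), sq_nonneg (p - 3 * q), mul_nonneg (hq.trans hpq) (sq_nonneg (p - 3 * q))]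
  rw [h1]
  have := mul_le_mul_of_nonneg_left h2 (sub_nonneg.2 hpq)
  linarith

end Data

end MP_582e4a_co
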