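import Mathlib
import Pool.Agent.Lib.MP_582e4a_co.Basic

set_option linter.unusedSectionVars false

namespace MP_582e4a_co

variable {V : Type} [Fintype V] [DecidableEq V]

namespace Data

variable {a : V → V → ℝ} {x : V → ℝ} {r : ℝ}

/-- closed adjacency -/
noncomputable def cl (a : V → V → ℝ) (v w : V) : ℝ := a v w + if w = v then 1 else 0

theorem cl_zo (h : Data a x r) (v w : V) : cl a v w = 0 ∨ cl a v w = 1 := by
  unfold cl
  by_cases hw : w = v
  · subst hw
    rw [h.diag, if_pos rfl, zero_add]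
    exact Or.inr rfl
  · rw [if_neg hw, add_zero]
    exact h.zo v w

theorem cl_symm (h : Data a x r) (v w : V) : cl a v w = cl a w v := by
  unfold cl
  rw [h.symm v w]
  congr 1
  by_cases hw : w = v
  · rw [if_pos hw, if_pos hw.symm]
  · rw [if_neg hw, if_neg (Ne.symm hw)]

theorem sum_cl (_h : Data a x r) (v : V) : ∑ w, cl a v w = ∑ w, a v w + 1 := by
  unfold cl
  rw [Finset.sum_add_distrib]
  simp

/-- the difference of two entries of the Perron vector -/
theorem diff_le (h : Data a x r) (u v : V) :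
    (r + 1) * (x u - x v) ≤ ∑ w, cl a u w * (1 - cl a v w) * x w := by
  have h1 : (r + 1) * (x u - x v) = ∑ w, (cl a u w - cl a v w) * x w := by
    rw [mul_sub, ← h.eig' u, ← h.eig' v, ← Finset.sum_sub_distrib]
    refine Finset.sum_congr rfl fun w _ => ?_
    unfold cl
    ring
  rw [h1]
  refine Finset.sum_le_sum fun w _ => ?_
  refine mul_le_mul_of_nonneg_right ?_ (h.pos w).le
  rcases h.cl_zo u w with e | e <;> rcases h.cl_zo v w with e' | e' <;> rw [e, e'] <;> norm_num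

theorem sum_nonneg' (h : Data a x r) (u v : V) :
    0 ≤ ∑ w, cl a u w * (1 - cl a v w) * x w := by
  refine Finset.sum_nonneg fun w _ => mul_nonneg (mul_nonneg ?_ ?_) (h.pos w).le
  · rcases h.cl_zo u w with e | e <;> rw [e]
    norm_num
  · rcases h.cl_zo v w with e | e <;> rw [e] <;> norm_num

theorem pair_ineq (h : Data a x r) (u v : V) :
    (r + 1) * (x u ^ 2 - x v ^ 2) ^ 2 ≤
      32 / 27 * (x u ^ 3 * ∑ w, cl a u w * (1 - cl a v w) * x w) +
      32 / 27 * (x v ^ 3 * ∑ w, cl a v w * (1 - cl a u w) * x w) := by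
  have ht : 0 ≤ r + 1 := by linarith [h.r_nonneg]
  have key : ∀ u v, x v ≤ x u → (r + 1) * (x u ^ 2 - x v ^ 2) ^ 2 ≤
      32 / 27 * (x u ^ 3 * ∑ w, cl a u w * (1 - cl a v w) * x w) := by
    intro u v huv
    have h1 := cube_ineq (x u) (x v) (h.pos v).le huv
    have h2 := h.diff_le u v
    have h3 : 0 ≤ x u ^ 3 := by have := h.pos u; positivity
    calc (r + 1) * (x u ^ 2 - x v ^ 2) ^ 2 ≤ (r + 1) * (32 / 27 * (x u ^ 3 * (x u - x v))) :=
          mul_le_mul_of_nonneg_left h1 ht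
      _ = 32 / 27 * (x u ^ 3 * ((r + 1) * (x u - x v))) := by ring
      _ ≤ _ := by
        refine mul_le_mul_of_nonneg_left (mul_le_mul_of_nonneg_left h2 h3) (by norm_num)
  rcases le_total (x v) (x u) with hle | hle
  · have h1 := key u v hle
    have h2 : 0 ≤ 32 / 27 * (x v ^ 3 * ∑ w, cl a v w * (1 - cl a u w) * x w) := by
      have := h.pos v
      have h3 := h.sum_nonneg' v u
      positivity
    linarith
  · have h1 := key v u hle
    have h2 : 0 ≤ 32 / 27 * (x u ^ 3 * ∑ w, cl a u w * (1 - cl a v w) * x w) := by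
      have := h.pos u
      have h3 := h.sum_nonneg' u v
      positivity
    have h4 : (x u ^ 2 - x v ^ 2) ^ 2 = (x v ^ 2 - x u ^ 2) ^ 2 := by ring
    rw [h4]
    linarith

theorem sum_sq_diff (h : Data a x r) :
    ∑ u, ∑ v, (x u ^ 2 - x v ^ 2) ^ 2 = 2 * ((Fintype.card V : ℝ) * ∑ v, (x v ^ 2) ^ 2) - 2 := by
  have h1 : ∀ u, ∑ v, (x u ^ 2 - x v ^ 2) ^ 2 =
      (Fintype.card V : ℝ) * (x u ^ 2) ^ 2 - 2 * x u ^ 2 + ∑ v, (x v ^ 2) ^ 2 := by
    intro u
    have h2 : ∀ v, (x u ^ 2 - x v ^ 2) ^ 2 =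
        (x u ^ 2) ^ 2 - (2 * x u ^ 2) * x v ^ 2 + (x v ^ 2) ^ 2 := fun v => by ring
    simp only [h2]
    rw [Finset.sum_add_distrib, Finset.sum_sub_distrib, ← Finset.mul_sum, h.unit]
    simp
  simp only [h1]
  rw [Finset.sum_add_distrib, Finset.sum_sub_distrib, ← Finset.mul_sum, ← Finset.mul_sum, h.unit]
  simp
  ring

/-- Case A of the main inequality: all entries are at most `27 n / (64 (n-1))`. -/
theorem caseA (h : Data a x r) (hn : 2 ≤ Fintype.card V) (M : ℝ) (hM : ∀ v, x v ^ 2 ≤ M)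
    (hM' : 64 * ((Fintype.card V : ℝ) - 1) * M ≤ 27 * Fintype.card V) :
    (∑ v, (∑ w, a v w) * x v ^ 2) * Fintype.card V ≤
      ((Fintype.card V : ℝ) - 1) *
        (Fintype.card V - 2 * Fintype.card V * ∑ v, (x v ^ 2) ^ 2 + 2) := by
  set n : ℝ := (Fintype.card V : ℝ) with hnR
  have hn2 : (2 : ℝ) ≤ n := by rw [hnR]; exact_mod_cast hn
  have ht : 0 < r + 1 := by linarith [h.r_nonneg]
  set Λ : ℝ := ∑ w, (n - 1 - ∑ z, a w z) * x w ^ 2 with hΛ
  -- upper bound of the weighted double sum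
  have hW : ∑ u, ∑ v, x u ^ 3 * ∑ w, cl a u w * (1 - cl a v w) * x w ≤ M * ((r + 1) * Λ) := by
    have e1 : ∀ u, ∑ v, x u ^ 3 * ∑ w, cl a u w * (1 - cl a v w) * x w =
        ∑ w, (n - 1 - ∑ z, a w z) * (x w * (cl a u w * x u ^ 3)) := by
      intro u
      simp only [Finset.mul_sum]
      rw [Finset.sum_comm]
      refine Finset.sum_congr rfl fun w _ => ?_
      have e2 : ∀ v, x u ^ 3 * (cl a u w * (1 - cl a v w) * x w) =
          (1 - cl a w v) * (x w * (cl a u w * x u ^ 3)) := by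
        intro v
        rw [h.cl_symm v w]; ring
      simp only [e2]
      rw [← Finset.sum_mul, Finset.sum_sub_distrib, h.sum_cl]
      simp only [Finset.sum_const, Finset.card_univ, nsmul_eq_mul, mul_one]
      ring
    simp only [e1]
    rw [Finset.sum_comm]
    have e3 : M * ((r + 1) * Λ) = ∑ w, (n - 1 - ∑ z, a w z) * (x w * (M * ((r + 1) * x w))) := by
      rw [hΛ, Finset.mul_sum, Finset.mul_sum]
      refine Finset.sum_congr rfl fun w _ => ?_
      ring
    rw [e3]
    refine Finset.sum_le_sum fun w _ => ?_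
    rw [← Finset.mul_sum]
    have e4 : 0 ≤ n - 1 - ∑ z, a w z := by
      have : ∑ z, cl a w z ≤ n := by
        calc ∑ z, cl a w z ≤ ∑ z : V, (1 : ℝ) := by
              refine Finset.sum_le_sum fun z _ => ?_
              rcases h.cl_zo w z with e | e <;> rw [e]
              norm_num
          _ = n := by simp [hnR]
      rw [h.sum_cl] at this
      linarith
    refine mul_le_mul_of_nonneg_left ?_ e4
    rw [← Finset.mul_sum]
    refine mul_le_mul_of_nonneg_left ?_ (h.pos w).le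
    rw [← h.eig' w, Finset.mul_sum]
    refine Finset.sum_le_sum fun u _ => ?_
    have e5 : cl a u w = a w u + if u = w then 1 else 0 := by
      rw [h.cl_symm]; rfl
    rw [e5]
    have e6 : 0 ≤ a w u + if u = w then 1 else 0 := by
      rw [← e5]
      rcases h.cl_zo u w with e | e <;> rw [e]
      norm_num
    have e7 : x u ^ 3 ≤ M * x u := by
      have := mul_le_mul_of_nonneg_right (hM u) (h.pos u).le
      calc x u ^ 3 = x u ^ 2 * x u := by ring
        _ ≤ _ := this
    calc (a w u + if u = w then 1 else 0) * x u ^ 3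
        ≤ (a w u + if u = w then 1 else 0) * (M * x u) := mul_le_mul_of_nonneg_left e7 e6
      _ = _ := by ring
  have hW' : ∑ u, ∑ v, x v ^ 3 * ∑ w, cl a v w * (1 - cl a u w) * x w ≤ M * ((r + 1) * Λ) := by
    rw [Finset.sum_comm]
    exact hW
  have hT : (r + 1) * ∑ u, ∑ v, (x u ^ 2 - x v ^ 2) ^ 2 ≤ 64 / 27 * (M * ((r + 1) * Λ)) := by
    have e1 : (r + 1) * ∑ u, ∑ v, (x u ^ 2 - x v ^ 2) ^ 2 =
        ∑ u, ∑ v, (r + 1) * (x u ^ 2 - x v ^ 2) ^ 2 := by
      simp only [Finset.mul_sum]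
    rw [e1]
    have e2 : ∑ u, ∑ v, (r + 1) * (x u ^ 2 - x v ^ 2) ^ 2 ≤
        ∑ u, ∑ v, (32 / 27 * (x u ^ 3 * ∑ w, cl a u w * (1 - cl a v w) * x w) +
      32 / 27 * (x v ^ 3 * ∑ w, cl a v w * (1 - cl a u w) * x w)) :=
      Finset.sum_le_sum fun u _ => Finset.sum_le_sum fun v _ => h.pair_ineq u v
    refine e2.trans ?_
    have e3 : ∀ (A B : V → V → ℝ), ∑ u, ∑ v, (32 / 27 * A u v + 32 / 27 * B u v) =
        32 / 27 * ∑ u, ∑ v, A u v + 32 / 27 * ∑ u, ∑ v, B u v := by
      intro A B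
      simp only [Finset.sum_add_distrib, Finset.mul_sum]
    rw [e3 (fun u v => x u ^ 3 * ∑ w, cl a u w * (1 - cl a v w) * x w)
      (fun u v => x v ^ 3 * ∑ w, cl a v w * (1 - cl a u w) * x w)]
    linarith
  rw [h.sum_sq_diff] at hT
  set S : ℝ := ∑ v, (x v ^ 2) ^ 2 with hS
  have hT' : 2 * (n * S) - 2 ≤ 64 / 27 * (M * Λ) := by
    have : (r + 1) * (2 * (n * S) - 2) ≤ (r + 1) * (64 / 27 * (M * Λ)) := by
      calc _ ≤ 64 / 27 * (M * ((r + 1) * Λ)) := hT
        _ = _ := by ring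
    exact le_of_mul_le_mul_left this ht
  have hΛ' : Λ = n - 1 - ∑ v, (∑ w, a v w) * x v ^ 2 := by
    rw [hΛ]
    simp only [sub_mul, Finset.sum_sub_distrib]
    rw [← Finset.mul_sum, h.unit]
    simp [h.unit]
  have hΛ0 : 0 ≤ Λ := by
    rw [hΛ]
    refine Finset.sum_nonneg fun w _ => mul_nonneg ?_ (sq_nonneg _)
    have : ∑ z, cl a w z ≤ n := by
      calc ∑ z, cl a w z ≤ ∑ z : V, (1 : ℝ) := by
            refine Finset.sum_le_sum fun z _ => ?_
            rcases h.cl_zo w z with e | e <;> rw [e]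
            norm_num
        _ = n := by simp [hnR]
    rw [h.sum_cl] at this
    linarith
  have hfin : (n - 1) * (2 * (n * S) - 2) ≤ n * Λ := by
    calc (n - 1) * (2 * (n * S) - 2) ≤ (n - 1) * (64 / 27 * (M * Λ)) :=
          mul_le_mul_of_nonneg_left hT' (by linarith)
      _ = (64 * (n - 1) * M) * Λ / 27 := by ring
      _ ≤ (27 * n) * Λ / 27 := by
          have := mul_le_mul_of_nonneg_right hM' hΛ0
          linarith
      _ = n * Λ := by ring
  rw [hΛ'] at hfin
  nlinarith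

end Data

end MP_582e4a_co
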