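import Mathlib
import Pool.Agent.Lib.MP_582e4a_co.Basic

set_option linter.unusedSectionVars false

namespace MP_582e4a_co

variable {V : Type} [Fintype V] [DecidableEq V]

/-- the final numerical inequality of case B -/
theorem caseB_num (n D w M R σ S' : ℝ) (hn : 7 ≤ n) (hD2 : 2 ≤ D) (hDn : D ≤ n - 1)
    (hw : D * w = 1) (hM : 27 / 64 ≤ M) (hM2 : M ≤ 1 / 2)
    (hR : M * R ≤ D * (1 - M))
    (hσ : σ ≤ D * M + (1 - M) + (R + 1) * (1 - 2 * M) / 2)
    (hS : S' ≤ (1 - M) * ((9 * (M * w) + 3 * (1 - 2 * M)) / 5)) :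
    σ * n ≤ (n - 1) * (n - 2 * n * (M ^ 2 + S') + 2) := by
  obtain ⟨ε, hε⟩ : ∃ ε, ε = 1 - 2 * M := ⟨_, rfl⟩
  have hMε : M = (1 - ε) / 2 := by linarith
  have hε0 : 0 ≤ ε := by linarith
  have hε1 : ε ≤ 5 / 32 := by linarith
  have hD0 : 0 < D := by linarith
  have hw0 : 0 < w := by
    by_contra h
    rw [not_lt] at h
    nlinarith
  have hw2 : w ≤ 1 / 2 := by nlinarith
  have hR' : R ≤ D * (1 + 64 / 27 * ε) := by
    have h1 : M * (D * (1 + 64 / 27 * ε)) - D * (1 - M) = D * ε * (64 / 27 * M - 1) := by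
      rw [hε]; ring
    have h2 : 0 ≤ D * ε * (64 / 27 * M - 1) := by
      apply mul_nonneg (mul_nonneg hD0.le hε0)
      linarith
    have h3 : M * R ≤ M * (D * (1 + 64 / 27 * ε)) := by linarith
    exact le_of_mul_le_mul_left h3 (by linarith)
  have hRε : R * ε ≤ D * (1 + 64 / 27 * ε) * ε := mul_le_mul_of_nonneg_right hR' hε0
  have hn1 : 0 < n - 1 := by linarith
  have hnw : (n - 1) * w ≤ 1 + (n - 1 - D) / 2 := by
    have h1 : (n - 1) * w = D * w + (n - 1 - D) * w := by ring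
    rw [h1, hw]
    have : (n - 1 - D) * w ≤ (n - 1 - D) * (1 / 2) :=
      mul_le_mul_of_nonneg_left hw2 (by linarith)
    linarith
  have hnw0 : 0 ≤ (n - 1) * w := by positivity
  -- bound of `2 (n-1) S'`
  have hNS : 2 * (n - 1) * S' ≤ 9 / 10 * ((n - 1) * w) + 3 / 5 * (n - 1) * (ε * (1 + ε)) := by
    have h1 : 2 * (n - 1) * S' ≤ 2 * (n - 1) * ((1 - M) * ((9 * (M * w) + 3 * (1 - 2 * M)) / 5)) :=
      mul_le_mul_of_nonneg_left hS (by linarith)
    have h2 : 2 * (n - 1) * ((1 - M) * ((9 * (M * w) + 3 * (1 - 2 * M)) / 5)) =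
        9 / 10 * ((n - 1) * w) * (1 - ε ^ 2) + 3 / 5 * (n - 1) * (ε * (1 + ε)) := by
      rw [hMε]; ring
    have h3 : 9 / 10 * ((n - 1) * w) * (1 - ε ^ 2) ≤ 9 / 10 * ((n - 1) * w) := by
      nlinarith [mul_nonneg hnw0 (sq_nonneg ε)]
    linarith
  have hNε : 0 ≤ (n - 1) * ε := by positivity
  have hDε : D * ε ^ 2 ≤ (n - 1) * ε ^ 2 := mul_le_mul_of_nonneg_right hDn (sq_nonneg _)
  have hNεε : (n - 1) * ε ^ 2 ≤ (n - 1) * ε * (5 / 32) := by nlinarith
  have hmain : σ + 2 * (n - 1) * (M ^ 2 + S') ≤ (n - 1) + 12 / 7 := by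
    have e1 : σ ≤ D / 2 + 1 / 2 + ε + 32 / 27 * (D * ε ^ 2) := by
      have : D * M + (1 - M) + (R + 1) * (1 - 2 * M) / 2 =
          D * (1 - ε) / 2 + (1 + ε) / 2 + R * ε / 2 + ε / 2 := by
        rw [hMε]; ring
      rw [this] at hσ
      nlinarith
    have e2 : 2 * (n - 1) * M ^ 2 = (n - 1) / 2 - (n - 1) * ε + (n - 1) * ε ^ 2 / 2 := by
      rw [hMε]; ring
    nlinarith
  have hn0 : 0 < n := by linarith
  have h7 : (12 / 7 : ℝ) * n ≤ 2 * (n - 1) := by linarith
  nlinarith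

namespace Data

variable {a : V → V → ℝ} {x : V → ℝ} {r : ℝ}

theorem deg_nat (h : Data a x r) (v : V) : ∃ k : ℕ, ∑ w, a v w = (k : ℝ) := by
  refine ⟨(Finset.univ.filter fun w => a v w = 1).card, ?_⟩
  rw [Finset.card_filter]
  push_cast
  refine Finset.sum_congr rfl fun w _ => ?_
  rcases h.zo v w with e | e <;> rw [e] <;> norm_num

/-- Case B of the main inequality: one entry is larger than `27 n / (64 (n-1))`. -/
theorem caseB (h : Data a x r) (hn : 2 ≤ Fintype.card V)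
    (hconn : 2 * ((Fintype.card V : ℝ) - 1) ≤ ∑ v, ∑ w, a v w) (u : V)
    (hu : 27 * (Fintype.card V : ℝ) < 64 * ((Fintype.card V : ℝ) - 1) * x u ^ 2) :
    (∑ v, (∑ w, a v w) * x v ^ 2) * Fintype.card V ≤
      ((Fintype.card V : ℝ) - 1) *
        (Fintype.card V - 2 * Fintype.card V * ∑ v, (x v ^ 2) ^ 2 + 2) := by
  set n : ℝ := (Fintype.card V : ℝ) with hnR
  have hn2 : (2 : ℝ) ≤ n := by rw [hnR]; exact_mod_cast hn
  have hr1 := h.r_ge_one
  have hr0 : 0 < r := by linarith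
  set U := Finset.univ.erase u with hU
  set M := x u ^ 2 with hM
  have hsplit : ∀ f : V → ℝ, ∑ v, f v = f u + ∑ v ∈ U, f v := by
    intro f
    rw [hU, Finset.add_sum_erase _ _ (Finset.mem_univ u)]
  have hUne : ∀ v ∈ U, v ≠ u := fun v hv => Finset.ne_of_mem_erase hv
  have hmass : ∑ v ∈ U, x v ^ 2 = 1 - M := by
    have := h.unit
    rw [hsplit] at this
    linarith
  set E : ℝ := ∑ v ∈ U, ∑ w ∈ U, a v w * (x v * x w) with hE
  have hstar : ∑ v ∈ U, a u v * x v = r * x u := by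
    rw [← h.eig u, hsplit (fun w => a u w * x w), h.diag]; ring
  have hEval : E = r * (1 - 2 * M) := by
    have h1 : ∀ v ∈ U, ∑ w ∈ U, a v w * (x v * x w) = r * x v ^ 2 - x u * (a u v * x v) := by
      intro v _
      have h2 := h.eig v
      rw [hsplit (fun w => a v w * x w)] at h2
      have h3 : ∑ w ∈ U, a v w * (x v * x w) = x v * ∑ w ∈ U, a v w * x w := by
        rw [Finset.mul_sum]
        refine Finset.sum_congr rfl fun w _ => ?_
        ring
      rw [h3, h.symm u v]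
      linear_combination (x v) * h2
    rw [hE, Finset.sum_congr rfl h1, Finset.sum_sub_distrib, ← Finset.mul_sum, ← Finset.mul_sum,
      hmass, hstar, hM]
    ring
  have hg0 : ∀ v w, 0 ≤ a v w * (x v * x w) := fun v w =>
    mul_nonneg (h.nonneg v w) (mul_nonneg (h.pos v).le (h.pos w).le)
  have hE0 : 0 ≤ E := Finset.sum_nonneg fun v _ => Finset.sum_nonneg fun w _ => hg0 v w
  have hM2 : M ≤ 1 / 2 := by
    rw [hEval] at hE0
    have := nonneg_of_mul_nonneg_right hE0 hr0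
    linarith
  have hn7 : 7 ≤ n := by
    have h1 : 6 < Fintype.card V := by
      by_contra hlt
      have : Fintype.card V ≤ 6 := by omega
      have h2 : n ≤ 6 := by rw [hnR]; exact_mod_cast this
      nlinarith
    rw [hnR]
    exact_mod_cast h1
  have hM27 : 27 / 64 ≤ M := by nlinarith
  set D := ∑ w, a u w with hD
  have hDn : D ≤ n - 1 := by
    rw [hD, hsplit (fun w => a u w), h.diag, zero_add]
    calc ∑ w ∈ U, a u w ≤ ∑ w ∈ U, (1 : ℝ) := Finset.sum_le_sum fun w _ => h.le_one u w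
      _ = n - 1 := by
        rw [Finset.sum_const, nsmul_eq_mul, mul_one, hU, Finset.card_erase_of_mem (Finset.mem_univ u),
          Finset.card_univ, Nat.cast_sub (by omega)]
        simp [hnR]
  have hRD : D ≤ r ^ 2 := h.deg_le_sq u
  -- there is a vertex of degree two
  have hR2 : 2 ≤ r ^ 2 := by
    by_contra hlt
    rw [not_le] at hlt
    have h1 : ∀ v, ∑ w, a v w ≤ 1 := by
      intro v
      obtain ⟨k, hk⟩ := h.deg_nat v
      have h2 := h.deg_le_sq v
      rw [hk] at h2 ⊢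
      have h3 : (k : ℝ) < 2 := by linarith
      have h4 : k < 2 := by exact_mod_cast h3
      have h5 : k ≤ 1 := by omega
      exact_mod_cast h5
    have h2 : ∑ v, ∑ w, a v w ≤ n := by
      calc ∑ v, ∑ w, a v w ≤ ∑ v : V, (1 : ℝ) := Finset.sum_le_sum fun v _ => h1 v
        _ = n := by simp [hnR]
    linarith
  have hF1 : M * r ^ 2 ≤ D * (1 - M) := by
    have h1 : (∑ w ∈ U, a u w * x w) ^ 2 ≤ (∑ w ∈ U, a u w ^ 2) * ∑ w ∈ U, x w ^ 2 :=
      Finset.sum_mul_sq_le_sq_mul_sq _ _ _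
    rw [hstar, hmass] at h1
    have h2 : ∑ w ∈ U, a u w ^ 2 = D := by
      rw [hD, hsplit (fun w => a u w), h.diag, zero_add]
      refine Finset.sum_congr rfl fun w _ => ?_
      rcases h.zo u w with e | e <;> rw [e] <;> norm_num
    rw [h2] at h1
    calc M * r ^ 2 = (r * x u) ^ 2 := by rw [hM]; ring
      _ ≤ _ := h1
  have hD2 : 2 ≤ D := by
    obtain ⟨k, hk⟩ := h.deg_nat u
    have h1 : 1 < D := by
      by_contra hlt
      rw [not_lt] at hlt
      nlinarith
    rw [hD, hk] at h1 ⊢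
    have h2 : 1 < k := by exact_mod_cast h1
    have h3 : 2 ≤ k := by omega
    exact_mod_cast h3
  -- bound of the entries outside `u`
  have hrow : ∀ v ∈ U, 2 * ∑ w ∈ U, a v w * (x v * x w) ≤ E := by
    intro v hv
    have h1 : E = ∑ w ∈ U, a v w * (x v * x w) +
        ∑ p ∈ U.erase v, ∑ w ∈ U, a p w * (x p * x w) := by
      rw [hE]
      exact (Finset.add_sum_erase U (fun v => ∑ w ∈ U, a v w * (x v * x w)) hv).symm
    have h2 : ∑ p ∈ U.erase v, a p v * (x p * x v) ≤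
        ∑ p ∈ U.erase v, ∑ w ∈ U, a p w * (x p * x w) := by
      refine Finset.sum_le_sum fun p _ => ?_
      exact Finset.single_le_sum (f := fun w => a p w * (x p * x w)) (fun w _ => hg0 p w) hv
    have h3 : ∑ w ∈ U, a v w * (x v * x w) = ∑ p ∈ U.erase v, a p v * (x p * x v) := by
      rw [← Finset.add_sum_erase _ _ hv, h.diag, zero_mul, zero_add]
      refine Finset.sum_congr rfl fun p _ => ?_
      rw [h.symm v p]; ring
    linarith
  obtain ⟨w, hw⟩ : ∃ w, D * w = 1 := ⟨D⁻¹, mul_inv_cancel₀ (by linarith)⟩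
  have hw0 : 0 < w := by
    by_contra hlt
    rw [not_lt] at hlt
    nlinarith
  have hF4 : ∀ v ∈ U, x v ^ 2 ≤ (9 * (M * w) + 3 * (1 - 2 * M)) / 5 := by
    intro v hv
    have h1 := hrow v hv
    rw [hEval] at h1
    have h2 := h.eig v
    rw [hsplit (fun w => a v w * x w)] at h2
    have h3 : ∑ w ∈ U, a v w * (x v * x w) = x v * ∑ w ∈ U, a v w * x w := by
      rw [Finset.mul_sum]
      refine Finset.sum_congr rfl fun w _ => ?_
      ring
    rw [h3] at h1
    have h4 : a v u * x u ≤ x u := by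
      have := mul_le_mul_of_nonneg_right (h.le_one v u) (h.pos u).le
      linarith
    have hxv := h.pos v
    have hxu := h.pos u
    -- `r y_v ≤ x_u x_v + r (1-2M)/2`
    have h5 : r * x v ^ 2 ≤ x u * x v + r * (1 - 2 * M) / 2 := by
      have h6 : r * x v ^ 2 = x v * (a v u * x u) + x v * ∑ w ∈ U, a v w * x w := by
        linear_combination (-(x v)) * h2
      have h7 : x v * (a v u * x u) ≤ x v * x u := mul_le_mul_of_nonneg_left h4 hxv.le
      linarith
    have h8 : 5 * (r ^ 2 * x v ^ 2) ≤ 9 * M + 3 * (r ^ 2 * (1 - 2 * M)) := by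
      have h9 := mul_le_mul_of_nonneg_left h5 hr0.le
      have h10 := sq_nonneg (3 * x u - r * x v)
      rw [hM] at h9 ⊢
      nlinarith
    have h11 : M ≤ r ^ 2 * (M * w) := by
      have : D * w * M ≤ r ^ 2 * w * M := by
        refine mul_le_mul_of_nonneg_right (mul_le_mul_of_nonneg_right hRD hw0.le) ?_
        linarith
      rw [hw] at this
      linarith
    have h12 : r ^ 2 * (5 * x v ^ 2) ≤ r ^ 2 * (9 * (M * w) + 3 * (1 - 2 * M)) := by
      nlinarith
    have h13 := le_of_mul_le_mul_left h12 (by positivity)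
    linarith
  have hS' : ∑ v ∈ U, (x v ^ 2) ^ 2 ≤ (1 - M) * ((9 * (M * w) + 3 * (1 - 2 * M)) / 5) := by
    rw [← hmass, Finset.sum_mul]
    refine Finset.sum_le_sum fun v hv => ?_
    rw [pow_two (x v ^ 2)]
    exact mul_le_mul_of_nonneg_left (hF4 v hv) (sq_nonneg _)
  -- bound of sigma
  have hσ : ∑ v, (∑ w, a v w) * x v ^ 2 ≤
      D * M + (1 - M) + (r ^ 2 + 1) * (1 - 2 * M) / 2 := by
    rw [hsplit (fun v => (∑ w, a v w) * x v ^ 2)]
    have h1 : ∀ v ∈ U, (∑ w, a v w) * x v ^ 2 ≤ x v ^ 2 + ∑ w ∈ U, a v w * x v ^ 2 := by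
      intro v _
      rw [hsplit (fun w => a v w), add_mul, Finset.sum_mul]
      have := mul_le_mul_of_nonneg_right (h.le_one v u) (sq_nonneg (x v))
      linarith
    have h2 := Finset.sum_le_sum h1
    rw [Finset.sum_add_distrib, hmass] at h2
    have h3 : 2 * (r * ∑ v ∈ U, ∑ w ∈ U, a v w * x v ^ 2) ≤ (r ^ 2 + 1) * E := by
      have h4 : ∑ v ∈ U, ∑ w ∈ U, a v w * x v ^ 2 = ∑ v ∈ U, ∑ w ∈ U, a v w * x w ^ 2 := by
        rw [Finset.sum_comm]
        refine Finset.sum_congr rfl fun v _ => Finset.sum_congr rfl fun w _ => ?_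
        rw [h.symm]
      have h5 : 2 * (r * ∑ v ∈ U, ∑ w ∈ U, a v w * x v ^ 2) =
          ∑ v ∈ U, ∑ w ∈ U, a v w * (r * (x v ^ 2 + x w ^ 2)) := by
        have h6 : ∑ v ∈ U, ∑ w ∈ U, a v w * (r * (x v ^ 2 + x w ^ 2)) =
            r * ∑ v ∈ U, ∑ w ∈ U, a v w * x v ^ 2 + r * ∑ v ∈ U, ∑ w ∈ U, a v w * x w ^ 2 := by
          simp only [Finset.mul_sum]
          rw [← Finset.sum_add_distrib]
          refine Finset.sum_congr rfl fun v _ => ?_
          rw [← Finset.sum_add_distrib]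
          refine Finset.sum_congr rfl fun w _ => ?_
          ring
        rw [h6, ← h4]
        ring
      rw [h5, hE, Finset.mul_sum]
      refine Finset.sum_le_sum fun v _ => ?_
      rw [Finset.mul_sum]
      refine Finset.sum_le_sum fun w _ => ?_
      rcases h.zo v w with e | e
      · rw [e]; simp
      · have h7 : x w ≤ r * x v := by
          rw [← h.eig v]
          have := Finset.single_le_sum (f := fun w => a v w * x w)
            (fun w _ => mul_nonneg (h.nonneg v w) (h.pos w).le) (Finset.mem_univ w)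
          simpa [e] using this
        have h8 : x v ≤ r * x w := by
          rw [← h.eig w]
          have := Finset.single_le_sum (f := fun z => a w z * x z)
            (fun z _ => mul_nonneg (h.nonneg w z) (h.pos z).le) (Finset.mem_univ v)
          rw [h.symm w v, e] at this
          simpa using this
        rw [e]
        nlinarith [mul_nonneg (sub_nonneg.2 h7) (sub_nonneg.2 h8)]
    rw [hEval] at h3
    have h4 : ∑ v ∈ U, ∑ w ∈ U, a v w * x v ^ 2 ≤ (r ^ 2 + 1) * (1 - 2 * M) / 2 := by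
      have h5 : r * (2 * ∑ v ∈ U, ∑ w ∈ U, a v w * x v ^ 2) ≤ r * ((r ^ 2 + 1) * (1 - 2 * M)) := by
        linarith
      have h6 := le_of_mul_le_mul_left h5 hr0
      linarith
    linarith
  have hSsplit : ∑ v, (x v ^ 2) ^ 2 = M ^ 2 + ∑ v ∈ U, (x v ^ 2) ^ 2 := by
    rw [hsplit (fun v => (x v ^ 2) ^ 2)]
  rw [hSsplit]
  exact caseB_num n D w M (r ^ 2) _ _ hn7 hD2 hDn hw hM27 hM2 hF1 hσ hS'

end Data

end MP_582e4a_co
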