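import Mathlib

/-!
# The average mixing matrix of a finite simple graph
-/

namespace MP_582e4a_co

open scoped Classical in
/-- the adjacency matrix of `X`, acting on Euclidean space -/
noncomputable def adjOp {V : Type} [Fintype V] (X : SimpleGraph V) :
    EuclideanSpace ℝ V →ₗ[ℝ] EuclideanSpace ℝ V :=
  Matrix.toEuclideanLin (X.adjMatrix ℝ)

open scoped Classical in
/-- the matrix `E_θ` of the orthogonal projection onto the `θ`-eigenspace of the adjacency
matrix: its `(u, v)` entry is the `u`-th coordinate of the projection of the basis vector `e_v` -/
noncomputable def specProj {V : Type} [Fintype V] (X : SimpleGraph V) (θ : ℝ) : Matrix V V ℝ :=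
  fun u v => ((Module.End.eigenspace (adjOp X) θ).starProjection (EuclideanSpace.single v 1)) u

/-- the average mixing matrix `∑_θ E_θ ∘ E_θ` (entrywise squares), the sum being over the
distinct eigenvalues `θ` of the adjacency matrix -/
noncomputable def avgMixing {V : Type} [Fintype V] (X : SimpleGraph V) : Matrix V V ℝ :=
  fun u v => ∑ θ : Module.End.Eigenvalues (adjOp X), specProj X (θ : ℝ) u v ^ 2

end MP_582e4a_co
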