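import Mathlib
import Pool.Agent.Lib.MP_582e4a_co.Defs
import Pool.Agent.Lib.MP_582e4a_co.Basic

set_option linter.unusedSectionVars false

namespace MP_582e4a_co

variable {V : Type} [Fintype V]

open scoped Classical in
/-- adjacency weights -/
noncomputable def adjW (X : SimpleGraph V) (v w : V) : ℝ := if X.Adj v w then 1 else 0

theorem adjOp_apply (X : SimpleGraph V) (z : EuclideanSpace ℝ V) (v : V) :
    adjOp X z v = ∑ w, adjW X v w * z w := by
  classical
  unfold adjOp adjW
  rw [Matrix.toLpLin_apply]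
  simp [Matrix.mulVec, dotProduct, SimpleGraph.adjMatrix_apply]

theorem adjW_nonneg (X : SimpleGraph V) (v w : V) : 0 ≤ adjW X v w := by
  unfold adjW; split_ifs <;> norm_num

theorem adjW_symm (X : SimpleGraph V) (v w : V) : adjW X v w = adjW X w v := by
  unfold adjW
  by_cases h : X.Adj v w
  · rw [if_pos h, if_pos h.symm]
  · rw [if_neg h, if_neg (fun h' => h h'.symm)]

theorem adjW_self (X : SimpleGraph V) (v : V) : adjW X v v = 0 := by
  unfold adjW; simp

theorem adjW_adj {X : SimpleGraph V} {v w : V} (h : X.Adj v w) : adjW X v w = 1 := by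
  unfold adjW; rw [if_pos h]

theorem adjOp_symm (X : SimpleGraph V) : (adjOp X).IsSymmetric := by
  classical
  unfold adjOp
  rw [Matrix.isSymmetric_toEuclideanLin_iff]
  ext i j
  rw [Matrix.conjTranspose_apply, SimpleGraph.adjMatrix_apply, SimpleGraph.adjMatrix_apply]
  simp only [X.adj_comm j i]
  split_ifs <;> simp

theorem inner_adjOp (X : SimpleGraph V) (z : EuclideanSpace ℝ V) :
    inner ℝ (adjOp X z) z = ∑ v, ∑ w, adjW X v w * (z v * z w) := by
  rw [PiLp.inner_apply]
  refine Finset.sum_congr rfl fun v _ => ?_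
  rw [adjOp_apply]
  simp only [RCLike.inner_apply, conj_trivial]
  rw [Finset.mul_sum]
  refine Finset.sum_congr rfl fun w _ => ?_
  ring

/-- a nonnegative solution of the eigenvalue equation with one zero entry vanishes -/
theorem zero_of_zero {X : SimpleGraph V} (hX : X.Connected) (z : V → ℝ) (r : ℝ)
    (hz : ∀ v, 0 ≤ z v) (he : ∀ v, ∑ w, adjW X v w * z w = r * z v) (v : V) (hv : z v = 0)
    (u : V) : z u = 0 := by
  obtain ⟨p⟩ := hX.preconnected v u
  induction p with
  | nil => exact hv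
  | @cons v w u hvw _ ih =>
    apply ih
    have h1 := he v
    rw [hv, mul_zero] at h1
    have h2 := (Finset.sum_eq_zero_iff_of_nonneg
      (fun w _ => mul_nonneg (adjW_nonneg X v w) (hz w))).1 h1 w (Finset.mem_univ w)
    rw [adjW_adj hvw, one_mul] at h2
    exact h2

/-- existence of the Perron vector -/
theorem exists_perron {X : SimpleGraph V} (hX : X.Connected) :
    ∃ (x : V → ℝ) (r : ℝ), (∀ v, 0 < x v) ∧ (∀ v, ∑ w, adjW X v w * x w = r * x v) ∧
      ∑ v, x v ^ 2 = 1 := by
  classical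
  have hne : Nonempty V := hX.nonempty
  have hnt : Nontrivial (EuclideanSpace ℝ V) := inferInstance
  let hT := adjOp_symm X
  let T' := hT.toSelfAdjoint
  have H₁ : IsCompact (Metric.sphere (0 : EuclideanSpace ℝ V) 1) := isCompact_sphere _ _
  have H₂ : (Metric.sphere (0 : EuclideanSpace ℝ V) 1).Nonempty :=
    NormedSpace.sphere_nonempty.2 zero_le_one
  obtain ⟨z₀, hz₀, hmax⟩ :=
    H₁.exists_isMaxOn H₂ T'.val.reApplyInnerSelf_continuous.continuousOn
  have hre : ∀ z : EuclideanSpace ℝ V, T'.val.reApplyInnerSelf z =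
      ∑ v, ∑ w, adjW X v w * (z v * z w) := by
    intro z
    rw [ContinuousLinearMap.reApplyInnerSelf_apply, ← inner_adjOp]
    rfl
  let z₁ : EuclideanSpace ℝ V := WithLp.toLp 2 (fun v => |z₀ v|)
  have hz₁v : ∀ v, z₁ v = |z₀ v| := fun v => rfl
  have hn0 : ‖z₀‖ = 1 := by simpa using hz₀
  have hn1 : ‖z₁‖ = 1 := by
    rw [← hn0, EuclideanSpace.norm_eq, EuclideanSpace.norm_eq]
    congr 1
    refine Finset.sum_congr rfl fun v _ => ?_
    rw [hz₁v, Real.norm_eq_abs, Real.norm_eq_abs, abs_abs]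
  have hge : T'.val.reApplyInnerSelf z₀ ≤ T'.val.reApplyInnerSelf z₁ := by
    rw [hre, hre]
    refine Finset.sum_le_sum fun v _ => Finset.sum_le_sum fun w _ => ?_
    rw [hz₁v, hz₁v, ← abs_mul]
    exact mul_le_mul_of_nonneg_left (le_abs_self _) (adjW_nonneg X v w)
  have hmax₁ : IsMaxOn T'.val.reApplyInnerSelf (Metric.sphere (0 : EuclideanSpace ℝ V) ‖z₁‖) z₁ := by
    rw [hn1]
    intro z hz
    exact (hmax hz).trans hge
  have hz₁ne : z₁ ≠ 0 := by
    intro h
    rw [h, norm_zero] at hn1
    norm_num at hn1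
  have hev := T'.prop.hasEigenvector_of_isMaxOn hz₁ne hmax₁
  obtain ⟨r, hr⟩ : ∃ r : ℝ, adjOp X z₁ = r • z₁ := by
    exact ⟨_, Module.End.mem_eigenspace_iff.1 hev.1⟩
  have heig : ∀ v, ∑ w, adjW X v w * z₁ w = r * z₁ v := by
    intro v
    rw [← adjOp_apply, hr]
    rfl
  refine ⟨z₁, r, ?_, heig, ?_⟩
  · intro v
    have h0 : ∀ v, 0 ≤ z₁ v := fun v => by rw [hz₁v]; exact abs_nonneg _
    rcases (h0 v).lt_or_eq with h | h
    · exact h
    · exfalso
      apply hz₁ne
      ext u
      exact zero_of_zero hX (fun v => z₁ v) r h0 heig v h.symm u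
  · have := EuclideanSpace.norm_sq_eq z₁
    rw [hn1] at this
    simp only [Real.norm_eq_abs, sq_abs] at this
    rw [← this]
    norm_num

/-- the Perron eigenspace is one-dimensional -/
theorem perron_unique {X : SimpleGraph V} (hX : X.Connected) {x : V → ℝ} {r : ℝ}
    (hx : ∀ v, 0 < x v) (he : ∀ v, ∑ w, adjW X v w * x w = r * x v) (z : V → ℝ)
    (hz : ∀ v, ∑ w, adjW X v w * z w = r * z v) : ∃ c : ℝ, ∀ v, z v = c * x v := by
  have hne : Nonempty V := hX.nonempty
  obtain ⟨v₀, _, hv₀⟩ := Finset.exists_min_image Finset.univ (fun v => z v / x v)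
    Finset.univ_nonempty
  refine ⟨z v₀ / x v₀, ?_⟩
  set c := z v₀ / x v₀ with hc
  have h1 : ∀ v, 0 ≤ z v - c * x v := by
    intro v
    have := hv₀ v (Finset.mem_univ v)
    rw [le_div_iff₀ (hx v)] at this
    linarith
  have h2 : z v₀ - c * x v₀ = 0 := by
    rw [hc, div_mul_cancel₀ _ (hx v₀).ne', sub_self]
  have h3 : ∀ v, ∑ w, adjW X v w * (z w - c * x w) = r * (z v - c * x v) := by
    intro v
    simp only [mul_sub, Finset.sum_sub_distrib]
    rw [hz v]
    have : ∑ w, adjW X v w * (c * x w) = c * (r * x v) := by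
      rw [← he v, Finset.mul_sum]
      refine Finset.sum_congr rfl fun w _ => ?_
      ring
    rw [this]
    ring
  intro v
  have := zero_of_zero hX (fun v => z v - c * x v) r h1 h3 v₀ h2 v
  linarith

/-- the data used in the main inequality -/
theorem perron_data {X : SimpleGraph V} (hX : X.Connected) (hn : 2 ≤ Fintype.card V) {x : V → ℝ}
    {r : ℝ} (hx : ∀ v, 0 < x v) (he : ∀ v, ∑ w, adjW X v w * x w = r * x v)
    (hu : ∑ v, x v ^ 2 = 1) : Data (adjW X) x r := by
  classical
  have hnt : Nontrivial V := Fintype.one_lt_card_iff_nontrivial.1 hn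
  refine ⟨?_, adjW_symm X, adjW_self X, hx, he, hu, ?_⟩
  · intro v w
    unfold adjW
    split_ifs
    · exact Or.inr rfl
    · exact Or.inl rfl
  · intro v
    obtain ⟨u, hu⟩ := hX.preconnected.exists_adj_of_nontrivial v
    have := Finset.single_le_sum (f := fun w => adjW X v w) (fun w _ => adjW_nonneg X v w)
      (Finset.mem_univ u)
    rw [adjW_adj hu] at this
    exact this

theorem sum_adjW (X : SimpleGraph V) (hX : X.Connected) :
    2 * ((Fintype.card V : ℝ) - 1) ≤ ∑ v, ∑ w, adjW X v w := by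
  classical
  have h1 := hX.card_vert_le_card_edgeSet_add_one
  have h2 := X.sum_degrees_eq_twice_card_edges
  have h3 : ∑ v, ∑ w, adjW X v w = ((∑ v, X.degree v : ℕ) : ℝ) := by
    push_cast
    refine Finset.sum_congr rfl fun v _ => ?_
    unfold adjW
    rw [← SimpleGraph.card_neighborFinset_eq_degree, SimpleGraph.neighborFinset_eq_filter,
      Finset.card_filter]
    push_cast
    refine Finset.sum_congr rfl fun w _ => ?_
    congr
  rw [h3, h2]
  rw [Nat.card_eq_fintype_card, Nat.card_eq_fintype_card, ← SimpleGraph.edgeFinset_card] at h1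
  have h4 : (Fintype.card V : ℝ) ≤ (X.edgeFinset.card : ℝ) + 1 := by exact_mod_cast h1
  push_cast
  linarith

end MP_582e4a_co
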