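import Mathlib
import Pool.Agent.Lib.MP_582e4a_co.Perron

set_option linter.unusedSectionVars false

namespace MP_582e4a_co

variable {V : Type} [Fintype V]

/-- projection on the eigenspace -/
noncomputable def pj (X : SimpleGraph V) (θ : ℝ) (z : EuclideanSpace ℝ V) : EuclideanSpace ℝ V :=
  (Module.End.eigenspace (adjOp X) θ).starProjection z

/-- diagonal entries of the spectral projections -/
noncomputable def pr (X : SimpleGraph V) (θ : ℝ) (v : V) : ℝ := specProj X θ v v

open scoped Classical in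
/-- basis vectors -/
noncomputable def bv (v : V) : EuclideanSpace ℝ V := EuclideanSpace.single v 1

theorem bv_apply_self (v : V) : bv v v = 1 := by
  classical
  simp [bv]

theorem bv_apply_ne {v w : V} (h : w ≠ v) : bv v w = 0 := by
  classical
  simp [bv, h]

theorem inner_bv (z : EuclideanSpace ℝ V) (v : V) : inner ℝ z (bv v) = z v := by
  classical
  rw [PiLp.inner_apply, Finset.sum_eq_single v]
  · simp [bv_apply_self]
  · intro w _ hw
    simp [bv_apply_ne hw]
  · simp

theorem pr_eq (X : SimpleGraph V) (θ : ℝ) (v : V) : pr X θ v = pj X θ (bv v) v := rfl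

theorem pj_mem (X : SimpleGraph V) (θ : ℝ) (z : EuclideanSpace ℝ V) :
    pj X θ z ∈ Module.End.eigenspace (adjOp X) θ :=
  Submodule.starProjection_apply_mem _ _

theorem adjOp_pj (X : SimpleGraph V) (θ : ℝ) (z : EuclideanSpace ℝ V) :
    adjOp X (pj X θ z) = θ • pj X θ z :=
  Module.End.mem_eigenspace_iff.1 (pj_mem X θ z)

theorem pj_inner (X : SimpleGraph V) (θ : ℝ) (y z : EuclideanSpace ℝ V) :
    inner ℝ (pj X θ y) z = inner ℝ y (pj X θ z) :=
  Submodule.starProjection_isSymmetric _ y z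

theorem pj_of_mem (X : SimpleGraph V) (θ : ℝ) {z : EuclideanSpace ℝ V}
    (hz : adjOp X z = θ • z) : pj X θ z = z :=
  Submodule.starProjection_eq_self_iff.2 (Module.End.mem_eigenspace_iff.2 hz)

theorem pr_eq_norm (X : SimpleGraph V) (θ : ℝ) (v : V) : pr X θ v = ‖pj X θ (bv v)‖ ^ 2 := by
  have h1 : pj X θ (pj X θ (bv v)) = pj X θ (bv v) := pj_of_mem X θ (adjOp_pj X θ (bv v))
  rw [pr_eq, ← inner_bv, ← real_inner_self_eq_norm_sq]
  calc inner ℝ (pj X θ (bv v)) (bv v) = inner ℝ (pj X θ (pj X θ (bv v))) (bv v) := by rw [h1]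
    _ = inner ℝ (pj X θ (bv v)) (pj X θ (bv v)) := pj_inner X θ _ _

theorem pr_nonneg (X : SimpleGraph V) (θ : ℝ) (v : V) : 0 ≤ pr X θ v := by
  rw [pr_eq_norm]; positivity

theorem sum_pj (X : SimpleGraph V) (z : EuclideanSpace ℝ V) :
    ∑ θ : Module.End.Eigenvalues (adjOp X), pj X θ z = z := by
  have hT := adjOp_symm X
  refine hT.orthogonalFamily_eigenspaces'.sum_projection_of_mem_iSup z ?_
  have h1 := hT.orthogonalComplement_iSup_eigenspaces_eq_bot'
  rw [Submodule.orthogonal_eq_bot_iff] at h1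
  rw [h1]
  exact Submodule.mem_top

theorem sum_pr (X : SimpleGraph V) (v : V) :
    ∑ θ : Module.End.Eigenvalues (adjOp X), pr X θ v = 1 := by
  have h1 := congrArg (fun z : EuclideanSpace ℝ V => z v) (sum_pj X (bv v))
  simp only [bv_apply_self] at h1
  rw [← h1]
  simp [pr_eq]

theorem sum_mul_pr (X : SimpleGraph V) (v : V) :
    ∑ θ : Module.End.Eigenvalues (adjOp X), (θ : ℝ) * pr X θ v = 0 := by
  have h1 : adjOp X (∑ θ : Module.End.Eigenvalues (adjOp X), pj X θ (bv v)) = adjOp X (bv v) := by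
    rw [sum_pj]
  rw [map_sum] at h1
  have h2 := congrArg (fun z : EuclideanSpace ℝ V => z v) h1
  simp only [adjOp_pj] at h2
  have h3 : adjOp X (bv v) v = 0 := by
    rw [adjOp_apply, Finset.sum_eq_single v]
    · rw [adjW_self, zero_mul]
    · intro w _ hw
      rw [bv_apply_ne hw, mul_zero]
    · simp
  rw [h3] at h2
  rw [← h2]
  simp [pr_eq]

theorem sum_sq_mul_pr (X : SimpleGraph V) (v : V) :
    ∑ θ : Module.End.Eigenvalues (adjOp X), (θ : ℝ) ^ 2 * pr X θ v = ∑ w, adjW X v w := by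
  have h1 : adjOp X (adjOp X (∑ θ : Module.End.Eigenvalues (adjOp X), pj X θ (bv v))) =
      adjOp X (adjOp X (bv v)) := by
    rw [sum_pj]
  rw [map_sum, map_sum] at h1
  have h2 := congrArg (fun z : EuclideanSpace ℝ V => z v) h1
  simp only [adjOp_pj, map_smul, smul_smul] at h2
  have h3 : adjOp X (adjOp X (bv v)) v = ∑ w, adjW X v w := by
    rw [adjOp_apply]
    refine Finset.sum_congr rfl fun w _ => ?_
    rw [adjOp_apply, Finset.sum_eq_single v]
    · rw [bv_apply_self, mul_one, adjW_symm X w v]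
      unfold adjW
      split_ifs <;> norm_num
    · intro u _ hu
      rw [bv_apply_ne hu, mul_zero]
    · simp
  rw [h3] at h2
  rw [← h2]
  simp [pr_eq, pow_two]

theorem one_le_sum_pr (X : SimpleGraph V) (θ : Module.End.Eigenvalues (adjOp X)) :
    1 ≤ ∑ v, pr X θ v := by
  obtain ⟨z, hz⟩ := Module.End.HasEigenvalue.exists_hasEigenvector
    (show Module.End.HasEigenvalue (adjOp X) (θ : ℝ) from θ.2)
  have hz0 : 0 < ‖z‖ := norm_pos_iff.2 hz.2
  have hz1 : adjOp X z = (θ : ℝ) • z := Module.End.mem_eigenspace_iff.1 hz.1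
  have h1 : ∀ v, (z v) ^ 2 ≤ ‖z‖ ^ 2 * pr X θ v := by
    intro v
    rw [pr_eq_norm, ← inner_bv z v]
    have h2 : inner ℝ z (bv v) = inner ℝ z (pj X θ (bv v)) := by
      rw [← pj_inner, pj_of_mem X θ hz1]
    rw [h2, ← mul_pow]
    have h3 := abs_real_inner_le_norm z (pj X θ (bv v))
    rw [← sq_abs]
    exact pow_le_pow_left₀ (abs_nonneg _) h3 2
  have h4 := Finset.sum_le_sum (s := Finset.univ) fun v _ => h1 v
  rw [← Finset.mul_sum] at h4
  have h5 : ∑ v, (z v) ^ 2 = ‖z‖ ^ 2 := by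
    rw [EuclideanSpace.norm_sq_eq]
    simp only [Real.norm_eq_abs, sq_abs]
  rw [h5] at h4
  have h6 : ‖z‖ ^ 2 * 1 ≤ ‖z‖ ^ 2 * ∑ v, pr X θ v := by linarith
  exact le_of_mul_le_mul_left h6 (by positivity)

theorem pr_perron {X : SimpleGraph V} (hX : X.Connected) {x : V → ℝ} {r : ℝ}
    (hx : ∀ v, 0 < x v) (he : ∀ v, ∑ w, adjW X v w * x w = r * x v) (hu : ∑ v, x v ^ 2 = 1)
    (v : V) : pr X r v = x v ^ 2 := by
  let z : EuclideanSpace ℝ V := WithLp.toLp 2 x
  have hzv : ∀ v, z v = x v := fun v => rfl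
  have hz1 : adjOp X z = r • z := by
    ext v
    rw [adjOp_apply]
    exact he v
  obtain ⟨c, hc⟩ := perron_unique hX hx he (fun w => pj X r (bv v) w) (by
    intro w
    rw [← adjOp_apply, adjOp_pj]
    rfl)
  have h1 : inner ℝ z (pj X r (bv v)) = x v := by
    rw [← pj_inner, pj_of_mem X r hz1, inner_bv]
  have h2 : inner ℝ z (pj X r (bv v)) = c := by
    rw [PiLp.inner_apply]
    have : ∀ w, inner ℝ (z w) (pj X r (bv v) w) = c * x w ^ 2 := by
      intro w
      simp only [hc w, hzv]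
      simp only [RCLike.inner_apply, conj_trivial]
      ring
    simp only [this]
    rw [← Finset.mul_sum, hu, mul_one]
  rw [pr_eq, hc v, ← h2, h1]
  ring

/-- the Perron root is an eigenvalue -/
theorem perron_hasEigenvalue {X : SimpleGraph V} (hX : X.Connected) {x : V → ℝ} {r : ℝ}
    (hx : ∀ v, 0 < x v) (he : ∀ v, ∑ w, adjW X v w * x w = r * x v) :
    Module.End.HasEigenvalue (adjOp X) r := by
  let z : EuclideanSpace ℝ V := WithLp.toLp 2 x
  have hz1 : adjOp X z = r • z := by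
    ext v
    rw [adjOp_apply]
    exact he v
  have hz0 : z ≠ 0 := by
    intro h
    obtain ⟨v⟩ := hX.nonempty
    have : z v = 0 := by rw [h]; rfl
    exact (hx v).ne' this
  exact Module.End.hasEigenvalue_of_hasEigenvector ⟨Module.End.mem_eigenspace_iff.2 hz1, hz0⟩

end MP_582e4a_co
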