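import Mathlib
import Pool.Agent.Lib.MP_582e4a_co.CaseA
import Pool.Agent.Lib.MP_582e4a_co.CaseB
import Pool.Agent.Lib.MP_582e4a_co.Moments

set_option linter.unusedSectionVars false

namespace MP_582e4a_co

variable {V : Type} [Fintype V]

/-- the main inequality on the Perron vector -/
theorem Data.main [DecidableEq V] {a : V → V → ℝ} {x : V → ℝ} {r : ℝ} (h : Data a x r)
    (hn : 2 ≤ Fintype.card V)
    (hconn : 2 * ((Fintype.card V : ℝ) - 1) ≤ ∑ v, ∑ w, a v w) :
    (∑ v, (∑ w, a v w) * x v ^ 2) * Fintype.card V ≤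
      ((Fintype.card V : ℝ) - 1) *
        (Fintype.card V - 2 * Fintype.card V * ∑ v, (x v ^ 2) ^ 2 + 2) := by
  have hne : Nonempty V := Fintype.card_pos_iff.1 h.card_pos
  obtain ⟨u, _, hu⟩ := Finset.exists_max_image Finset.univ (fun v => x v ^ 2)
    Finset.univ_nonempty
  by_cases hc : 64 * ((Fintype.card V : ℝ) - 1) * x u ^ 2 ≤ 27 * Fintype.card V
  · exact h.caseA hn (x u ^ 2) (fun v => hu v (Finset.mem_univ v)) hc
  · exact h.caseB hn hconn u (not_le.1 hc)

/-- weighted variance inequality -/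
theorem sum_pair {ι : Type} (s : Finset ι) (p t : ι → ℝ) (τ : ℝ) (hp : ∀ i, 0 ≤ p i)
    (ht : ∀ i ∈ s, ∀ j ∈ s, i ≠ j → (t i - t j) ^ 2 ≤ 2 * τ) :
    (∑ i ∈ s, p i) * (∑ i ∈ s, t i ^ 2 * p i) - (∑ i ∈ s, t i * p i) ^ 2 ≤
      τ * ((∑ i ∈ s, p i) ^ 2 - ∑ i ∈ s, p i ^ 2) := by
  classical
  have h1 : ∑ i ∈ s, ∑ j ∈ s, p i * p j * (t i - t j) ^ 2 ≤
      ∑ i ∈ s, ∑ j ∈ s, (2 * τ) * (p i * p j - if i = j then p i ^ 2 else 0) := by
    refine Finset.sum_le_sum fun i hi => Finset.sum_le_sum fun j hj => ?_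
    by_cases hij : i = j
    · subst hij
      rw [if_pos rfl]
      have : (2 * τ) * (p i * p i - p i ^ 2) = 0 := by ring
      rw [this]
      have : p i * p i * (t i - t i) ^ 2 = 0 := by ring
      rw [this]
    · rw [if_neg hij, sub_zero]
      have h2 := ht i hi j hj hij
      have h3 := mul_le_mul_of_nonneg_left h2 (mul_nonneg (hp i) (hp j))
      linarith
  have h2 : ∑ i ∈ s, ∑ j ∈ s, p i * p j * (t i - t j) ^ 2 =
      2 * ((∑ i ∈ s, p i) * (∑ i ∈ s, t i ^ 2 * p i) - (∑ i ∈ s, t i * p i) ^ 2) := by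
    have e1 : ∀ i j, p i * p j * (t i - t j) ^ 2 =
        (t i ^ 2 * p i) * p j + p i * (t j ^ 2 * p j) - 2 * ((t i * p i) * (t j * p j)) := by
      intro i j; ring
    simp only [e1, Finset.sum_sub_distrib, Finset.sum_add_distrib, ← Finset.mul_sum,
      ← Finset.sum_mul]
    ring
  have h3 : ∑ i ∈ s, ∑ j ∈ s, (2 * τ) * (p i * p j - if i = j then p i ^ 2 else 0) =
      (2 * τ) * ((∑ i ∈ s, p i) ^ 2 - ∑ i ∈ s, p i ^ 2) := by
    simp only [← Finset.mul_sum]
    congr 1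
    simp only [Finset.sum_sub_distrib, ← Finset.mul_sum, ← Finset.sum_mul]
    congr 1
    · ring
    · refine Finset.sum_congr rfl fun i hi => ?_
      rw [Finset.sum_ite_eq, if_pos hi]
  rw [h2, h3] at h1
  linarith

theorem trace_eq (X : SimpleGraph V) :
    (avgMixing X).trace = ∑ v, ∑ θ : Module.End.Eigenvalues (adjOp X), pr X θ v ^ 2 := rfl

/-- upper bound for the trace of the average mixing matrix -/
theorem trace_le {X : SimpleGraph V} (hX : X.Connected) (hn : 2 ≤ Fintype.card V) :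
    (avgMixing X).trace ≤
      ((Fintype.card V : ℝ) ^ 2 - 2 * Fintype.card V + 2) / Fintype.card V := by
  classical
  obtain ⟨x, r, hx, he, hu⟩ := exists_perron hX
  have hD := perron_data hX hn hx he hu
  have hconn := sum_adjW X hX
  have hmain := hD.main hn hconn
  have hhong := hD.hong
  set n : ℝ := (Fintype.card V : ℝ) with hnR
  have hn2 : (2 : ℝ) ≤ n := by rw [hnR]; exact_mod_cast hn
  set e2 : ℝ := ∑ v, ∑ w, adjW X v w with he2
  set σ : ℝ := ∑ v, (∑ w, adjW X v w) * x v ^ 2 with hσ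
  set S : ℝ := ∑ v, (x v ^ 2) ^ 2 with hS
  let ρ : Module.End.Eigenvalues (adjOp X) := ⟨r, perron_hasEigenvalue hX hx he⟩
  have hρ : (ρ : ℝ) = r := rfl
  let s : Finset (Module.End.Eigenvalues (adjOp X)) := Finset.univ.erase ρ
  have hsplit : ∀ f : Module.End.Eigenvalues (adjOp X) → ℝ,
      ∑ θ, f θ = f ρ + ∑ θ ∈ s, f θ := by
    intro f
    exact (Finset.add_sum_erase _ _ (Finset.mem_univ ρ)).symm
  have hpρ : ∀ v, pr X (ρ : ℝ) v = x v ^ 2 := fun v => pr_perron hX hx he hu v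
  set τ : ℝ := e2 - r ^ 2 with hτ
  have hτn : n - 1 ≤ τ := by linarith
  have hτ0 : 0 < τ := by linarith
  -- the sum of squares of the other eigenvalues
  have hτ' : ∑ θ ∈ s, (θ : ℝ) ^ 2 * ∑ v, pr X θ v = τ := by
    have h1 : ∑ θ : Module.End.Eigenvalues (adjOp X), (θ : ℝ) ^ 2 * ∑ v, pr X θ v = e2 := by
      simp only [Finset.mul_sum]
      rw [Finset.sum_comm]
      exact Finset.sum_congr rfl fun v _ => sum_sq_mul_pr X v
    rw [hsplit] at h1
    have h2 : ∑ v, pr X (ρ : ℝ) v = 1 := by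
      rw [← hu]
      exact Finset.sum_congr rfl fun v _ => hpρ v
    rw [h2] at h1
    simp only [hρ, mul_one] at h1
    linarith
  have hgap : ∀ θ ∈ s, ∀ θ' ∈ s, θ ≠ θ' → ((θ : ℝ) - (θ' : ℝ)) ^ 2 ≤ 2 * τ := by
    intro θ hθ θ' hθ' hne
    have h1 : (θ : ℝ) ^ 2 + (θ' : ℝ) ^ 2 ≤ τ := by
      have h2 : ∑ η ∈ ({θ, θ'} : Finset (Module.End.Eigenvalues (adjOp X))), (η : ℝ) ^ 2 ≤
          ∑ η ∈ s, (η : ℝ) ^ 2 := by
        refine Finset.sum_le_sum_of_subset_of_nonneg ?_ (fun _ _ _ => sq_nonneg _)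
        intro η hη
        rw [Finset.mem_insert, Finset.mem_singleton] at hη
        rcases hη with rfl | rfl <;> assumption
      rw [Finset.sum_pair hne] at h2
      have h3 : ∑ η ∈ s, (η : ℝ) ^ 2 ≤ ∑ η ∈ s, (η : ℝ) ^ 2 * ∑ v, pr X η v := by
        refine Finset.sum_le_sum fun η _ => ?_
        exact le_mul_of_one_le_right (sq_nonneg _) (one_le_sum_pr X η)
      linarith
    nlinarith [sq_nonneg ((θ : ℝ) + (θ' : ℝ))]
  -- vertex inequality
  have hvert : ∀ v, ∑ θ : Module.End.Eigenvalues (adjOp X), pr X θ v ^ 2 ≤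
      1 - 2 * x v ^ 2 + 2 * (x v ^ 2) ^ 2 -
        ((∑ w, adjW X v w) - r ^ 2 * x v ^ 2 - (∑ w, adjW X v w) * x v ^ 2) / τ := by
    intro v
    have h0 := sum_pr X v
    have h1 := sum_mul_pr X v
    have h2 := sum_sq_mul_pr X v
    rw [hsplit, hpρ] at h0 h1 h2
    rw [hρ] at h1 h2
    rw [hsplit, hpρ]
    have h3 := sum_pair s (fun θ => pr X θ v) (fun θ => (θ : ℝ)) τ
      (fun θ => pr_nonneg X θ v) hgap
    set y := x v ^ 2 with hy
    set d := ∑ w, adjW X v w with hd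
    have h0' : ∑ θ ∈ s, pr X (θ : ℝ) v = 1 - y := by linarith
    have h1' : ∑ θ ∈ s, (θ : ℝ) * pr X (θ : ℝ) v = - (r * y) := by linarith
    have h2' : ∑ θ ∈ s, (θ : ℝ) ^ 2 * pr X (θ : ℝ) v = d - r ^ 2 * y := by linarith
    rw [h0', h1', h2'] at h3
    have h4 : (d - r ^ 2 * y - d * y) / τ ≤ (1 - y) ^ 2 - ∑ θ ∈ s, pr X (θ : ℝ) v ^ 2 := by
      rw [div_le_iff₀ hτ0]
      nlinarith
    nlinarith
  rw [trace_eq]
  have hsum := Finset.sum_le_sum (s := Finset.univ) fun v _ => hvert v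
  have hrhs : ∑ v, (1 - 2 * x v ^ 2 + 2 * (x v ^ 2) ^ 2 -
        ((∑ w, adjW X v w) - r ^ 2 * x v ^ 2 - (∑ w, adjW X v w) * x v ^ 2) / τ) =
      n - 2 + 2 * S - (e2 - r ^ 2 - σ) / τ := by
    simp only [Finset.sum_sub_distrib, Finset.sum_add_distrib, ← Finset.mul_sum,
      ← Finset.sum_div, hu]
    simp only [Finset.sum_const, Finset.card_univ, nsmul_eq_mul, mul_one]
    rw [hnR, hS, he2, hσ]
  rw [hrhs] at hsum
  refine hsum.trans ?_
  have h5 : (e2 - r ^ 2 - σ) / τ = 1 - σ / τ := by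
    rw [← hτ, sub_div, div_self hτ0.ne']
  rw [h5]
  have hσ0 : 0 ≤ σ := by
    refine Finset.sum_nonneg fun v _ => mul_nonneg ?_ (sq_nonneg _)
    exact Finset.sum_nonneg fun w _ => adjW_nonneg X v w
  have h6 : σ / τ ≤ σ / (n - 1) := by
    apply div_le_div_of_nonneg_left hσ0 (by linarith) hτn
  have h7 : σ / (n - 1) ≤ (n - 2 * n * S + 2) / n := by
    rw [div_le_div_iff₀ (by linarith) (by linarith)]
    linarith
  have h8 : (n - 2 * n * S + 2) / n = 1 - 2 * S + 2 / n := by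
    field_simp
  have h9 : (n ^ 2 - 2 * n + 2) / n = n - 2 + 2 / n := by
    field_simp
  rw [h9]
  linarith

theorem top_eig {θ : ℝ} {z : V → ℝ} (hz : ∀ v, ∑ w, adjW (⊤ : SimpleGraph V) v w * z w = θ * z v)
    (v : V) : (θ + 1) * z v = ∑ w, z w := by
  classical
  have h1 := hz v
  have h2 : ∀ w, adjW (⊤ : SimpleGraph V) v w * z w = z w - if w = v then z w else 0 := by
    intro w
    unfold adjW
    by_cases hw : w = v
    · subst hw
      simp
    · rw [if_pos (by simpa using Ne.symm hw), if_neg hw]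
      ring
  simp only [h2, Finset.sum_sub_distrib, Finset.sum_ite_eq', Finset.mem_univ, if_true] at h1
  linarith

/-- the trace of the average mixing matrix of the complete graph -/
theorem trace_top [Nonempty V] :
    (avgMixing (⊤ : SimpleGraph V)).trace =
      ((Fintype.card V : ℝ) ^ 2 - 2 * Fintype.card V + 2) / Fintype.card V := by
  classical
  set n : ℝ := (Fintype.card V : ℝ) with hnR
  have hn1 : (1 : ℝ) ≤ n := by
    rw [hnR]; exact_mod_cast Fintype.card_pos
  have hX : (⊤ : SimpleGraph V).Connected := SimpleGraph.connected_top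
  have hsq : Real.sqrt n * Real.sqrt n = n := Real.mul_self_sqrt (by linarith)
  have hs0 : 0 < Real.sqrt n := Real.sqrt_pos.2 (by linarith)
  set c : ℝ := 1 / Real.sqrt n with hc
  have hc0 : 0 < c := by positivity
  have hc2 : c ^ 2 = 1 / n := by
    rw [hc, div_pow, one_pow, pow_two, hsq]
  have hx : ∀ v : V, 0 < (fun _ : V => c) v := fun _ => hc0
  have he : ∀ v : V, ∑ w, adjW (⊤ : SimpleGraph V) v w * (fun _ : V => c) w =
      (n - 1) * (fun _ : V => c) v := by
    intro v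
    have h2 : ∀ w, adjW (⊤ : SimpleGraph V) v w * c = c - if w = v then c else 0 := by
      intro w
      unfold adjW
      by_cases hw : w = v
      · subst hw
        simp
      · rw [if_pos (by simpa using Ne.symm hw), if_neg hw]
        ring
    simp only [h2, Finset.sum_sub_distrib, Finset.sum_ite_eq', Finset.mem_univ, if_true,
      Finset.sum_const, Finset.card_univ, nsmul_eq_mul]
    rw [← hnR]; ring
  have hu : ∑ v : V, (fun _ : V => c) v ^ 2 = 1 := by
    simp only [Finset.sum_const, Finset.card_univ, nsmul_eq_mul]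
    rw [← hnR, hc2]
    field_simp
  let ρ : Module.End.Eigenvalues (adjOp (⊤ : SimpleGraph V)) :=
    ⟨n - 1, perron_hasEigenvalue hX hx he⟩
  let s : Finset (Module.End.Eigenvalues (adjOp (⊤ : SimpleGraph V))) := Finset.univ.erase ρ
  have hsplit : ∀ f : Module.End.Eigenvalues (adjOp (⊤ : SimpleGraph V)) → ℝ,
      ∑ θ, f θ = f ρ + ∑ θ ∈ s, f θ := by
    intro f
    exact (Finset.add_sum_erase _ _ (Finset.mem_univ ρ)).symm
  have hpρ : ∀ v, pr (⊤ : SimpleGraph V) (ρ : ℝ) v = 1 / n := by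
    intro v
    rw [← hc2]
    exact pr_perron hX hx he hu v
  have hval : ∀ θ ∈ s, (θ : ℝ) = -1 := by
    intro θ hθ
    by_contra hne
    have hne' : (θ : ℝ) + 1 ≠ 0 := by
      intro h; apply hne; linarith
    obtain ⟨z, hz⟩ := Module.End.HasEigenvalue.exists_hasEigenvector
      (show Module.End.HasEigenvalue (adjOp (⊤ : SimpleGraph V)) (θ : ℝ) from θ.2)
    have hz1 : adjOp (⊤ : SimpleGraph V) z = (θ : ℝ) • z := Module.End.mem_eigenspace_iff.1 hz.1
    have hz2 : ∀ v, ∑ w, adjW (⊤ : SimpleGraph V) v w * z w = (θ : ℝ) * z v := by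
      intro v
      rw [← adjOp_apply, hz1]
      rfl
    have hz3 := fun v => top_eig (z := fun v => z v) hz2 v
    have hz4 : ∀ v, z v = (∑ w, z w) / ((θ : ℝ) + 1) := by
      intro v
      rw [eq_div_iff hne', ← hz3 v]
      ring
    have hsum : (∑ w, z w) * ((θ : ℝ) + 1) = n * ∑ w, z w := by
      have : ∑ v, ((θ : ℝ) + 1) * z v = ∑ v : V, ∑ w, z w := Finset.sum_congr rfl fun v _ => hz3 v
      rw [← Finset.mul_sum, Finset.sum_const, Finset.card_univ, nsmul_eq_mul] at this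
      rw [mul_comm, this]
    have hnz : ∑ w, z w ≠ 0 := by
      intro h0
      apply hz.2
      ext v
      rw [hz4 v, h0]
      simp
    have : (θ : ℝ) + 1 = n := by
      apply mul_left_cancel₀ hnz
      linarith
    apply Finset.ne_of_mem_erase hθ
    apply Subtype.ext
    show (θ : ℝ) = n - 1
    linarith
  have hvert : ∀ v, ∑ θ : Module.End.Eigenvalues (adjOp (⊤ : SimpleGraph V)),
      pr (⊤ : SimpleGraph V) θ v ^ 2 = (1 / n) ^ 2 + (1 - 1 / n) ^ 2 := by
    intro v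
    have h0 := sum_pr (⊤ : SimpleGraph V) v
    rw [hsplit, hpρ] at h0
    rw [hsplit, hpρ]
    have h3 := sum_pair s (fun θ => pr (⊤ : SimpleGraph V) θ v) (fun θ => (θ : ℝ)) 0
      (fun θ => pr_nonneg _ θ v) (by
        intro θ hθ θ' hθ' _
        rw [hval θ hθ, hval θ' hθ']; norm_num)
    have hcard : (∑ θ ∈ s, pr (⊤ : SimpleGraph V) (θ : ℝ) v) ^ 2 =
        ∑ θ ∈ s, pr (⊤ : SimpleGraph V) (θ : ℝ) v ^ 2 := by
      rcases s.eq_empty_or_nonempty with hs | ⟨θ₀, hθ₀⟩
      · rw [hs]; simp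
      · have hs : s = {θ₀} := by
          ext θ
          rw [Finset.mem_singleton]
          constructor
          · intro hθ
            apply Subtype.ext
            exact (hval θ hθ).trans (hval θ₀ hθ₀).symm
          · rintro rfl
            exact hθ₀
        rw [hs, Finset.sum_singleton, Finset.sum_singleton]
    rw [← hcard]
    have h0' : ∑ θ ∈ s, pr (⊤ : SimpleGraph V) (θ : ℝ) v = 1 - 1 / n := by linarith
    rw [h0']
  rw [trace_eq]
  simp only [hvert, Finset.sum_const, Finset.card_univ, nsmul_eq_mul]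
  rw [← hnR]
  field_simp
  ring

end MP_582e4a_co
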